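import Mathlib
import Pool.Agent.V117.PFf

set_option linter.unusedSectionVars false

namespace Pool.Agent.Results.MP_48149e_co.FactorGroup

open Pool.Agent.V117.PF

/-- `S` is 3-product-free: no word of `S` is a concatenation of three words of `S`. -/
def ThreeProductFree {A : Type} (S : Set (List A)) : Prop :=
  ∀ x ∈ S, ∀ y ∈ S, ∀ z ∈ S, x ++ y ++ z ∉ S

/-- The weight `μ(S(n))` of the words of length `n` in `S`. -/
noncomputable def mu {A : Type} [Fintype A] (S : Set (List A)) (n : ℕ) : ℝ :=
  (Set.ncard {w | w ∈ S ∧ w.length = n} : ℝ) / (Fintype.card A : ℝ) ^ n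

/-- The average `d^I(S)` for the interval `I = {a, a+1, ..., a+L-1}`, where `I = (a, L)`. -/
noncomputable def dI {A : Type} [Fintype A] (S : Set (List A)) (I : ℕ × ℕ) : ℝ :=
  (∑ n ∈ Finset.Ico I.1 (I.1 + I.2), mu S n) / I.2

/-- The upper Banach density: the limsup of `d^I(S)` as both the least element and the length
of the interval `I` tend to infinity. -/
noncomputable def dStar {A : Type} [Fintype A] (S : Set (List A)) : ℝ :=
  Filter.limsup (dI S) Filter.atTop

/-- The label of a word. -/
def label {A : Type} {m : ℕ} (l : A → ZMod m) (w : List A) : ZMod m := (w.map l).sum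

/-- On the non-empty words that contain `z` as a factor (a block of consecutive letters),
membership in `S` is recognised by a finite group: there are a finite group `G`, a map `φ` from
the alphabet to `G` and a subset `T` of `G` such that such a word lies in `S` exactly when the
product in `G` of the images of its letters lies in `T`. Nothing is assumed on the other words. -/
def GroupRecognisedOn {A : Type} (z : List A) (S : Set (List A)) : Prop :=
  ∃ (G : Type) (_ : Group G) (_ : Finite G) (φ : A → G) (T : Set G),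
    ∀ w, w ≠ [] → z <:+: w → (w ∈ S ↔ (w.map φ).prod ∈ T)

section gen
variable {A : Type} {G : Type} [Group G] [Finite G]

lemma pow_word (φ : A → G) (w : List A) (k : ℕ) : ∃ v, val φ v = (val φ w) ^ k := by
  induction k with
  | zero => exact ⟨[], by simp⟩
  | succ k ih =>
    obtain ⟨v, hv⟩ := ih
    exact ⟨v ++ w, by rw [val_append, hv, pow_succ]⟩

lemma exists_word (φ : A → G) {g : G} (hg : g ∈ Subgroup.closure (Set.range φ)) :
    ∃ w, val φ w = g := by
  induction hg using Subgroup.closure_induction with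
  | mem x hx =>
    obtain ⟨a, rfl⟩ := hx
    exact ⟨[a], by simp⟩
  | one => exact ⟨[], rfl⟩
  | mul x y _ _ hx hy =>
    obtain ⟨v, hv⟩ := hx
    obtain ⟨w, hw⟩ := hy
    exact ⟨v ++ w, by rw [val_append, hv, hw]⟩
  | inv x _ hx =>
    obtain ⟨v, rfl⟩ := hx
    obtain ⟨w, hw⟩ := pow_word φ v (Nat.card G - 1)
    refine ⟨w, ?_⟩
    rw [hw, eq_inv_iff_mul_eq_one, ← pow_succ]
    have : Nat.card G - 1 + 1 = Nat.card G := Nat.sub_add_cancel Nat.card_pos
    rw [this]; exact pow_card_eq_one'

/-- the letters in the generated subgroup -/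
def phi' (φ : A → G) (x : A) : Subgroup.closure (Set.range φ) :=
  ⟨φ x, Subgroup.subset_closure ⟨x, rfl⟩⟩

lemma val_phi' (φ : A → G) (w : List A) : ((val (phi' φ) w : Subgroup.closure (Set.range φ)) : G) = val φ w := by
  induction w with
  | nil => rfl
  | cons x w ih => rw [val_cons, val_cons, Subgroup.coe_mul, ih]; rfl

lemma gen' (φ : A → G) (h : Subgroup.closure (Set.range φ)) : ∃ w, val (phi' φ) w = h := by
  obtain ⟨w, hw⟩ := exists_word φ h.2
  exact ⟨w, Subtype.ext (by rw [val_phi', hw])⟩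

lemma gen'' [Nonempty A] (φ : A → G) (h : Subgroup.closure (Set.range φ)) :
    ∃ w, w ≠ [] ∧ val (phi' φ) w = h := by
  obtain ⟨x⟩ := ‹Nonempty A›
  obtain ⟨w, hw⟩ := gen' φ (h * (phi' φ x)⁻¹)
  exact ⟨w ++ [x], by simp, by rw [val_append, hw]; simp⟩

end gen

section dens
variable {A : Type} [Fintype A] [DecidableEq A] [Nonempty A]

/-- proportion of words of length `n` not containing `z` -/
noncomputable def av (z : List A) (n : ℕ) : ℝ :=
  (∑ w ∈ words A n, if z <:+: w then (0 : ℝ) else 1) / (Fintype.card A : ℝ) ^ n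

lemma av_nonneg (z : List A) (n : ℕ) : 0 ≤ av z n := by
  unfold av
  apply div_nonneg
  · apply Finset.sum_nonneg; intro w _; split_ifs <;> norm_num
  · positivity

lemma sum_words_add (k n : ℕ) (F : List A → ℝ) :
    ∑ w ∈ words A (k + n), F w = ∑ u ∈ words A k, ∑ v ∈ words A n, F (u ++ v) := by
  induction k generalizing F with
  | zero => simp [words]
  | succ k ih =>
    have e : k + 1 + n = (k + n) + 1 := by omega
    rw [e, sum_words, sum_words]
    apply Finset.sum_congr rfl
    intro x _
    rw [ih]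
    rfl

lemma av_add (z : List A) (n : ℕ) :
    av z (z.length + n) ≤ (1 - 1 / (Fintype.card A : ℝ) ^ z.length) * av z n := by
  have hA := cA (A := A)
  have hAk : (0 : ℝ) < (Fintype.card A : ℝ) ^ z.length := by positivity
  have hAn : (0 : ℝ) < (Fintype.card A : ℝ) ^ n := by positivity
  have h1 : ∑ w ∈ words A (z.length + n), (if z <:+: w then (0 : ℝ) else 1) ≤
      ((Fintype.card A : ℝ) ^ z.length - 1) * ∑ v ∈ words A n, (if z <:+: v then (0 : ℝ) else 1) := by
    rw [sum_words_add]
    have h2 : ∀ u ∈ words A z.length, ∑ v ∈ words A n, (if z <:+: (u ++ v) then (0 : ℝ) else 1) ≤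
        (1 - if u = z then (1 : ℝ) else 0) * ∑ v ∈ words A n, (if z <:+: v then (0 : ℝ) else 1) := by
      intro u _
      rw [Finset.mul_sum]
      apply Finset.sum_le_sum
      intro v _
      by_cases h3 : u = z
      · have h4 : z <:+: (u ++ v) := by rw [h3]; exact (List.prefix_append z v).isInfix
        simp [h3, h4]
        rw [h3] at h4
        simp [h4]
      · by_cases h4 : z <:+: v
        · have h5 : z <:+: (u ++ v) := h4.trans (List.suffix_append u v).isInfix
          simp [h4, h5]
        · simp only [h3, h4, if_false, sub_zero, mul_one]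
          split_ifs <;> norm_num
    refine (Finset.sum_le_sum h2).trans (le_of_eq ?_)
    rw [← Finset.sum_mul, Finset.sum_sub_distrib, card_words, Finset.sum_ite_eq']
    rw [if_pos ((mem_words _ _).2 rfl)]
  unfold av
  rw [pow_add, div_le_iff₀ (by positivity)]
  refine h1.trans (le_of_eq ?_)
  field_simp

lemma av_anti (z : List A) : Antitone (av z) := by
  apply antitone_nat_of_succ_le
  intro n
  have hA := cA (A := A)
  unfold av
  rw [pow_succ, sum_words, div_le_div_iff₀ (by positivity) (by positivity)]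
  have h1 : ∀ x : A, ∑ w ∈ words A n, (if z <:+: (x :: w) then (0 : ℝ) else 1) ≤
      ∑ w ∈ words A n, (if z <:+: w then (0 : ℝ) else 1) := by
    intro x
    apply Finset.sum_le_sum
    intro w _
    by_cases h : z <:+: w
    · have h2 : z <:+: (x :: w) := h.trans (List.suffix_cons x w).isInfix
      simp [h, h2]
    · simp only [h, if_false]; split_ifs <;> norm_num
  have h2 := Finset.sum_le_sum (fun x (_ : x ∈ (Finset.univ : Finset A)) => h1 x)
  rw [Finset.sum_const, Finset.card_univ, nsmul_eq_mul] at h2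
  have h3 : (0 : ℝ) < (Fintype.card A : ℝ) ^ n := by positivity
  nlinarith

lemma av_tendsto (z : List A) : Filter.Tendsto (av z) Filter.atTop (nhds 0) := by
  have hbdd : BddBelow (Set.range (av z)) := ⟨0, by rintro _ ⟨n, rfl⟩; exact av_nonneg z n⟩
  have h1 := tendsto_atTop_ciInf (av_anti z) hbdd
  set ℓ := ⨅ i, av z i with hℓ
  have h0 : 0 ≤ ℓ := ge_of_tendsto' h1 (av_nonneg z)
  have h2 : Filter.Tendsto (fun n => av z (z.length + n)) Filter.atTop (nhds ℓ) := by
    have := (Filter.tendsto_add_atTop_iff_nat (f := av z) z.length).2 h1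
    refine this.congr (fun n => ?_)
    rw [add_comm]
  have h3 := h1.const_mul (1 - 1 / (Fintype.card A : ℝ) ^ z.length)
  have h4 := le_of_tendsto_of_tendsto' h2 h3 (av_add z)
  have hA := cA (A := A)
  have hAk : (0 : ℝ) < 1 / (Fintype.card A : ℝ) ^ z.length := by positivity
  have h5 : ℓ = 0 := by nlinarith
  rwa [h5] at h1

variable {G : Type} [Group G] [Fintype G] [DecidableEq G]

lemma mu_le (φ : A → G) (T : Finset G) (z : List A) (S : Set (List A))
    (hS : ∀ w ∈ S, z <:+: w → val φ w ∈ T) (n : ℕ) :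
    mu S n ≤ ∑ g ∈ T, p φ n g + av z n := by
  unfold mu p av
  rw [← Finset.sum_div, ← add_div, Finset.sum_comm]
  have hA := cA (A := A)
  apply div_le_div_of_nonneg_right _ (by positivity)
  have h1 : {w | w ∈ S ∧ w.length = n} ⊆
      (((words A n).filter (fun w => val φ w ∈ T ∨ ¬ z <:+: w) : Finset (List A)) : Set (List A)) := by
    rintro w ⟨h1, h2⟩
    rw [Finset.mem_coe, Finset.mem_filter]
    refine ⟨(mem_words n w).2 h2, ?_⟩
    by_cases h3 : z <:+: w
    · left; exact hS w h1 h3
    · right; exact h3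
  have h2 := Set.ncard_le_ncard h1 (Finset.finite_toSet _)
  rw [Set.ncard_coe_finset] at h2
  have h3 : (((words A n).filter (fun w => val φ w ∈ T ∨ ¬ z <:+: w)).card : ℝ) ≤
      (∑ w ∈ words A n, ∑ g ∈ T, if val φ w = g then (1 : ℝ) else 0) +
      ∑ w ∈ words A n, if z <:+: w then (0 : ℝ) else 1 := by
    rw [Finset.card_filter, ← Finset.sum_add_distrib]
    push_cast
    apply Finset.sum_le_sum
    intro w _
    by_cases h4 : val φ w ∈ T <;> by_cases h5 : z <:+: w <;> simp [h4, h5]
  have h4 : (Set.ncard {w | w ∈ S ∧ w.length = n} : ℝ) ≤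
      (((words A n).filter (fun w => val φ w ∈ T ∨ ¬ z <:+: w)).card : ℝ) := by exact_mod_cast h2
  exact h4.trans h3

lemma dI_le (φ : A → G) (hgen : ∀ g : G, ∃ w, val φ w = g) (T : Finset G) (z : List A) :
    ∃ C : ℝ, ∀ (S : Set (List A)) (_ : ∀ w ∈ S, z <:+: w → val φ w ∈ T) (I : ℕ × ℕ), 0 < I.2 →
      dI S I ≤ T.card / Fintype.card G + C / I.2 + av z I.1 := by
  obtain ⟨C, _, hC⟩ := q_bound φ hgen
  refine ⟨T.card * C, fun S hS I hI => ?_⟩
  have hI' : (0 : ℝ) < I.2 := by exact_mod_cast hI
  have h1 : dI S I ≤ ∑ g ∈ T, q φ I.1 I.2 g + av z I.1 := by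
    unfold dI q
    rw [← Finset.sum_div, Finset.sum_comm, div_le_iff₀ hI', add_mul, div_mul_cancel₀ _ hI'.ne']
    have h2 : ∑ n ∈ Finset.Ico I.1 (I.1 + I.2), mu S n ≤
        ∑ n ∈ Finset.Ico I.1 (I.1 + I.2), (∑ g ∈ T, p φ n g + av z I.1) := by
      apply Finset.sum_le_sum
      intro n hn
      have h3 := av_anti z (Finset.mem_Ico.1 hn).1
      have h4 := mu_le φ T z S hS n
      linarith
    refine h2.trans (le_of_eq ?_)
    rw [Finset.sum_add_distrib, Finset.sum_const, Nat.card_Ico, Nat.add_sub_cancel_left, nsmul_eq_mul]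
    ring
  refine h1.trans (add_le_add ((Finset.sum_le_sum fun g _ => hC I.1 I.2 hI g).trans ?_) le_rfl)
  rw [Finset.sum_const, nsmul_eq_mul]
  apply le_of_eq
  ring

lemma dStar_le (φ : A → G) (hgen : ∀ g : G, ∃ w, val φ w = g) (T : Finset G) (z : List A)
    (S : Set (List A)) (hS : ∀ w ∈ S, z <:+: w → val φ w ∈ T) :
    dStar S ≤ T.card / Fintype.card G := by
  obtain ⟨C, hC⟩ := dI_le φ hgen T z
  have hev : ∀ᶠ I : ℕ × ℕ in Filter.atTop, 0 < I.2 := by
    rw [← Filter.prod_atTop_atTop_eq]
    exact Filter.tendsto_snd.eventually (Filter.eventually_gt_atTop 0)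
  have hlim : Filter.Tendsto (fun I : ℕ × ℕ => (T.card : ℝ) / Fintype.card G + C / I.2 + av z I.1)
      Filter.atTop (nhds ((T.card : ℝ) / Fintype.card G)) := by
    have h1 : Filter.Tendsto (fun I : ℕ × ℕ => C / (I.2 : ℝ)) Filter.atTop (nhds 0) := by
      rw [← Filter.prod_atTop_atTop_eq]
      exact (tendsto_const_div_atTop_nhds_zero_nat C).comp Filter.tendsto_snd
    have h1' : Filter.Tendsto (fun I : ℕ × ℕ => av z I.1) Filter.atTop (nhds 0) := by
      rw [← Filter.prod_atTop_atTop_eq]
      exact (av_tendsto z).comp Filter.tendsto_fst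
    have h2 := (h1.const_add ((T.card : ℝ) / Fintype.card G)).add h1'
    simpa using h2
  have hnonneg : ∀ I, 0 ≤ dI S I := by
    intro I
    unfold dI mu
    apply div_nonneg _ (by positivity)
    apply Finset.sum_nonneg
    intro n _
    positivity
  unfold dStar
  calc Filter.limsup (dI S) Filter.atTop
      ≤ Filter.limsup (fun I : ℕ × ℕ => (T.card : ℝ) / Fintype.card G + C / I.2 + av z I.1)
          Filter.atTop := by
        apply Filter.limsup_le_limsup
        · filter_upwards [hev] with I hI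
          exact hC S hS I hI
        · exact Filter.isCoboundedUnder_le_of_le Filter.atTop hnonneg
        · exact hlim.isBoundedUnder_le
    _ = _ := hlim.limsup_eq

end dens

lemma label_eq {A H : Type} [Group H] {m : ℕ} (f : H →* Multiplicative (ZMod m)) (φ : A → H)
    (w : List A) : label (fun x => Multiplicative.toAdd (f (φ x))) w =
      Multiplicative.toAdd (f (val φ w)) := by
  induction w with
  | nil => simp [label]
  | cons x w ih =>
    rw [val_cons, map_mul, toAdd_mul, ← ih]
    simp [label]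

/-- the constraint on the label of a word of `S`, first kind -/
lemma dec3' : ∀ a : ZMod 3, a + 1 + 1 ≠ 1 → a + a + 1 ≠ 1 → a = 1 := by decide

lemma dec6' : ∀ a : ZMod 6, ¬ (a + 1 + 1 = 1 ∨ a + 1 + 1 = 2) → ¬ (a + 1 + 2 = 1 ∨ a + 1 + 2 = 2) →
    ¬ (a + 2 + 2 = 1 ∨ a + 2 + 2 = 2) → (a = 1 ∨ a = 2) := by decide

lemma dec6'' : ∀ a : ZMod 6, a ≠ 1 → a + 2 ≠ 1 → a + 2 + 2 ≠ 1 →
    ¬ (a + 2 + 2 = 1 ∨ a + 2 + 2 = 2) → ¬ (a + a + 2 = 1 ∨ a + a + 2 = 2) → (a = 1 ∨ a = 2) := by
  decide

lemma mul2 {H : Type} [Group H] {m : ℕ} (f : H →* Multiplicative (ZMod m)) (x y : H) :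
    Multiplicative.toAdd (f (x * y)) = Multiplicative.toAdd (f x) + Multiplicative.toAdd (f y) := by
  rw [f.map_mul, toAdd_mul]

lemma mul3 {H : Type} [Group H] {m : ℕ} (f : H →* Multiplicative (ZMod m)) (x y w : H) :
    Multiplicative.toAdd (f (x * y * w)) = Multiplicative.toAdd (f x) + Multiplicative.toAdd (f y) +
      Multiplicative.toAdd (f w) := by
  rw [mul2, mul2]

/-- A 3-product-free set of words which is recognised by a finite group on the words containing
some factor `z`, and whose upper Banach density is at least `1/3`, is contained in one of the two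
kinds of sets in the question, and coincides with it on the words containing `z`. -/
theorem result {A : Type} [Fintype A] [Nonempty A] (z : List A) (S : Set (List A))
    (hrec : GroupRecognisedOn z S) (hfree : ThreeProductFree S) (hd : 1 / 3 ≤ dStar S) :
    (∃ l : A → ZMod 3, S ⊆ {w | w ≠ [] ∧ label l w = 1} ∧
      ∀ w, w ≠ [] → z <:+: w → label l w = 1 → w ∈ S) ∨
    (∃ l : A → ZMod 6, S ⊆ {w | w ≠ [] ∧ (label l w = 1 ∨ label l w = 2)} ∧
      ∀ w, w ≠ [] → z <:+: w → (label l w = 1 ∨ label l w = 2) → w ∈ S) := by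
  classical
  obtain ⟨G, hG1, hG2, φ, T, hz⟩ := hrec
  haveI : Fintype (Subgroup.closure (Set.range φ)) := Fintype.ofFinite _
  let T' : Finset (Subgroup.closure (Set.range φ)) := Finset.univ.filter (fun h => (h : G) ∈ T)
  have hT' : ∀ h, h ∈ T' ↔ (h : G) ∈ T := by intro h; simp [T']
  have hval : ∀ w : List A, w ≠ [] → z <:+: w → (w ∈ S ↔ val (phi' φ) w ∈ T') := by
    intro w hw hzw
    rw [hT', val_phi', hz w hw hzw]; rfl
  have hne : ∀ w ∈ S, w ≠ [] := by
    rintro w hw rfl
    exact hfree [] hw [] hw [] hw hw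
  have hin : ∀ h ∈ T', ∃ w ∈ S, z <:+: w ∧ val (phi' φ) w = h := by
    intro h hh
    obtain ⟨v, hv, e⟩ := gen'' φ (h * (val (phi' φ) z)⁻¹)
    have e2 : val (phi' φ) (v ++ z) = h := by rw [val_append, e]; group
    have hzv : z <:+: (v ++ z) := (List.suffix_append v z).isInfix
    refine ⟨v ++ z, (hval _ (by simp [hv]) hzv).2 (by rw [e2]; exact hh), hzv, e2⟩
  have hout : ∀ x ∈ S, ∀ y ∈ S, ∀ w ∈ S, z <:+: w →
      val (phi' φ) x * val (phi' φ) y * val (phi' φ) w ∉ T' := by
    intro x hx y hy w hw hzw hcon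
    apply hfree x hx y hy w hw
    rw [hval _ (by simp [hne w hw]) (hzw.trans (List.suffix_append (x ++ y) w).isInfix),
      val_append, val_append]
    exact hcon
  have hTPF : TPF T' := by
    intro x hx y hy w hw hxyz
    obtain ⟨u, hu, _, rfl⟩ := hin x hx
    obtain ⟨v, hv, _, rfl⟩ := hin y hy
    obtain ⟨t, ht, hzt, rfl⟩ := hin w hw
    exact hout u hu v hv t ht hzt hxyz
  have hle := dStar_le (phi' φ) (gen' φ) T' z S
    (fun w hw hzw => (hval w (hne w hw) hzw).1 hw)
  have h1 := hd.trans hle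
  have hpos : (0 : ℝ) < Fintype.card (Subgroup.closure (Set.range φ)) := by
    exact_mod_cast Fintype.card_pos
  rw [le_div_iff₀ hpos] at h1
  have h2 : Fintype.card (Subgroup.closure (Set.range φ)) ≤ 3 * T'.card := by
    have : (Fintype.card (Subgroup.closure (Set.range φ)) : ℝ) ≤ 3 * T'.card := by linarith
    exact_mod_cast this
  have hTne : T'.Nonempty := by
    have h3 : 0 < Fintype.card (Subgroup.closure (Set.range φ)) := Fintype.card_pos
    exact Finset.card_pos.1 (by omega)
  obtain ⟨t0, ht0⟩ := hTne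
  rcases main hTPF h2 with ⟨f, hf⟩ | ⟨f, hf⟩
  · left
    have ht0f := (hf t0).1 ht0
    refine ⟨fun x => Multiplicative.toAdd (f (phi' φ x)), ?_, ?_⟩
    · intro w hw
      refine ⟨hne w hw, ?_⟩
      rw [label_eq]
      obtain ⟨v, hv, hzv, e⟩ := hin t0 ht0
      have c1 := hout w hw v hv v hv hzv
      have c2 := hout w hw w hw v hv hzv
      rw [hf, mul3, e, ht0f] at c1 c2
      exact dec3' _ c1 c2
    · intro w hw hzw hl
      rw [label_eq] at hl
      exact (hval w hw hzw).2 ((hf _).2 hl)
  · right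
    refine ⟨fun x => Multiplicative.toAdd (f (phi' φ x)), ?_, ?_⟩
    · intro w hw
      refine ⟨hne w hw, ?_⟩
      rw [label_eq]
      by_cases hone : ∃ t, Multiplicative.toAdd (f t) = 1
      · obtain ⟨t1, ht1⟩ := hone
        have ht2 : Multiplicative.toAdd (f (t1 * t1)) = 2 := by
          rw [mul2, ht1]; rfl
        obtain ⟨v1, hv1, hz1, e1⟩ := hin t1 ((hf t1).2 (Or.inl ht1))
        obtain ⟨v2, hv2, hz2, e2⟩ := hin (t1 * t1) ((hf (t1 * t1)).2 (Or.inr ht2))
        have c1 := hout w hw v1 hv1 v1 hv1 hz1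
        have c2 := hout w hw v1 hv1 v2 hv2 hz2
        have c3 := hout w hw v2 hv2 v2 hv2 hz2
        rw [e1, hf, mul3, ht1] at c1
        rw [e1, e2, hf, mul3, ht1, ht2] at c2
        rw [e2, hf, mul3, ht2] at c3
        exact dec6' _ c1 c2 c3
      · push Not at hone
        have ht2 : Multiplicative.toAdd (f t0) = 2 := by
          rcases (hf t0).1 ht0 with h3 | h3
          · exact absurd h3 (hone t0)
          · exact h3
        obtain ⟨v2, hv2, hz2, e2⟩ := hin t0 ht0
        have c3 := hout w hw v2 hv2 v2 hv2 hz2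
        have c4 := hout w hw w hw v2 hv2 hz2
        rw [e2, hf, mul3, ht2] at c3 c4
        have d1 := hone (val (phi' φ) w)
        have d2 := hone (val (phi' φ) w * t0)
        have d3 := hone (val (phi' φ) w * t0 * t0)
        rw [mul2, ht2] at d2
        rw [mul3, ht2] at d3
        exact dec6'' _ d1 d2 d3 c3 c4
    · intro w hw hzw hl
      rw [label_eq] at hl
      exact (hval w hw hzw).2 ((hf _).2 hl)

end Pool.Agent.Results.MP_48149e_co.FactorGroup
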